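import Pool.Agent.BOX.StmtsT

set_option autoImplicit false

namespace Pool.Agent.BOX.H15

open Set Filter Topology MeasureTheory

theorem wt_w2 {N : ℕ} : Wt (w2 : (Fin N → ℤ) → ℝ) := by
  refine ⟨fun g => ?_, fun g h => ?_⟩
  · have h1 : 0 ≤ ∑ i, |(g i : ℝ)| := Finset.sum_nonneg fun i _ => abs_nonneg _
    unfold w2
    nlinarith
  · have h1 : 0 ≤ ∑ i, |(g i : ℝ)| := Finset.sum_nonneg fun i _ => abs_nonneg _
    have h2 : 0 ≤ ∑ i, |(h i : ℝ)| := Finset.sum_nonneg fun i _ => abs_nonneg _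
    have h3 : ∑ i, |(((g + h) i : ℤ) : ℝ)| ≤ ∑ i, |(g i : ℝ)| + ∑ i, |(h i : ℝ)| := by
      rw [← Finset.sum_add_distrib]
      refine Finset.sum_le_sum fun i _ => ?_
      rw [Pi.add_apply, Int.cast_add]
      exact abs_add_le _ _
    have h0 : 0 ≤ ∑ i, |(((g + h) i : ℤ) : ℝ)| := Finset.sum_nonneg fun i _ => abs_nonneg _
    unfold w2
    rw [← mul_pow]
    apply pow_le_pow_left₀ (by linarith)
    nlinarith [mul_nonneg h1 h2]

theorem frq_flp {N : ℕ} (l : Fin N → ℝ) (i : Fin N) (k : Fin N → ℤ) :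
    frq l (flp i k) = frq l k := by
  unfold frq
  congr 1
  refine Finset.sum_congr rfl fun j _ => ?_
  have h : (flp i k) j = if j = i then - k j else k j := rfl
  rw [h]
  split
  · push_cast
    ring
  · rfl

theorem mat (seq : SeqStmt) (fnl : FnlStmt) (frt : FrtStmt) (hmut : MutStmt) : MatStmt := by
  intro l a hl ha hdio
  obtain ⟨W0, ν, hF, hG, h1, h0⟩ := frt l hl hdio
  obtain ⟨T, z, d, A, C, hT, hds, hb, hode, hA, hlim, hcl, hsym⟩ :=
    seq (ℤ × ℤ) (Fin 2 → ℤ) (th2 l) (frq l) w2 R2 Good2 W0 ν hF wt_w2 hG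
  have hν := hF.pos
  -- the symmetry
  have hflip : ∀ (i : Fin 2) (k : Fin 2 → ℤ), ∀ t > T, z (flp i k) t = - z k t := by
    intro i k t ht
    have h := hsym (flp i) (fun _ => -1) (fun _ => by norm_num) (fun _ _ _ => by norm_num)
      (frq_flp l i) (fun F hF p k => by
        rw [hF.2.1 p k i]
        push_cast
        ring) k t ht
    rw [h]
    push_cast
    ring
  have hd0 : ∀ k, 0 ≤ d k := by
    intro k
    have h2 := hb k (T + 1) (by linarith)
    have h3 : 0 < (T + 1) ^ (-(1 / 2) : ℝ) := Real.rpow_pos_of_pos (by linarith) _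
    have h4 := (norm_nonneg (z k (T + 1))).trans h2
    by_contra hneg
    push Not at hneg
    nlinarith
  have hdsum : Summable d := by
    refine Summable.of_nonneg_of_le hd0 (fun k => ?_) hds
    have := (wt_w2 (N := 2)).1 k
    nlinarith [hd0 k]
  -- the lower bound
  set κ : ℝ := 1 / (4 * ν) with hκ
  have hκ0 : 0 < κ := by positivity
  have hκ1 : κ < 1 / (2 * ν) := by
    rw [hκ]
    apply one_div_lt_one_div_of_lt
    · positivity
    · linarith
  have hev1 : ∀ᶠ t in atTop, κ < t * A t ^ 2 := hlim.eventually (lt_mem_nhds hκ1)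
  obtain ⟨t1, ht1⟩ := eventually_atTop.1 hev1
  have hsq : 0 < Real.sqrt κ := Real.sqrt_pos.2 hκ0
  set T' : ℝ := max (max T t1) (|C| / Real.sqrt κ) with hT'
  have hTT : T ≤ T' := (le_max_left _ _).trans (le_max_left _ _)
  have htt : t1 ≤ T' := (le_max_right _ _).trans (le_max_left _ _)
  have hCT : |C| / Real.sqrt κ ≤ T' := le_max_right _ _
  have hev : ∀ t, ‖ev (th2 l) W0 t ![1, 1]‖ = 2 := by
    intro t
    unfold ev
    rw [tsum_eq_single ((1, 0) : ℤ × ℤ)]
    · rw [h1, norm_mul]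
      have h5 : ‖Complex.exp (Complex.I * (((th2 l) (1, 0) * t : ℝ) : ℂ))‖ = 1 := by
        rw [mul_comm]
        exact Complex.norm_exp_ofReal_mul_I _
      rw [h5]
      norm_num
    · intro p hp
      rw [h0 p hp, zero_mul]
  have hlow : ∀ t > T', Real.sqrt κ * t ^ (-(1 / 2) : ℝ) ≤ ‖z ![1, 1] t‖ := by
    intro t ht
    have htT : t > T := lt_of_le_of_lt hTT ht
    have ht0 : 0 < t := by linarith
    have h2 := ht1 t (htt.trans ht.le)
    have hAt := hA t htT
    have h3 := hcl ![1, 1] t htT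
    have h4 : ‖(A t : ℂ) * ev (th2 l) W0 t ![1, 1]‖ = 2 * A t := by
      rw [norm_mul, hev, Complex.norm_real, Real.norm_eq_abs, abs_of_pos hAt]
      ring
    have h5 : 2 * A t - C * t ^ (-(3 / 2) : ℝ) ≤ ‖z ![1, 1] t‖ := by
      have h6 := norm_sub_norm_le ((A t : ℂ) * ev (th2 l) W0 t ![1, 1]) (z ![1, 1] t)
      rw [norm_sub_rev] at h6
      rw [h4] at h6
      linarith
    have h7 : Real.sqrt κ * t ^ (-(1 / 2) : ℝ) ≤ A t := by
      have h8 : t ^ (-(1 / 2) : ℝ) = (Real.sqrt t)⁻¹ := by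
        rw [Real.rpow_neg ht0.le, Real.sqrt_eq_rpow]
      have h9 : 0 < Real.sqrt t := Real.sqrt_pos.2 ht0
      rw [h8, ← div_eq_mul_inv, div_le_iff₀ h9]
      rw [Real.sqrt_le_left (by positivity)]
      rw [mul_pow, Real.sq_sqrt ht0.le]
      linarith
    have h10 : C * t ^ (-(3 / 2) : ℝ) ≤ Real.sqrt κ * t ^ (-(1 / 2) : ℝ) := by
      have h11 : t ^ (-(3 / 2) : ℝ) = t ^ (-(1 / 2) : ℝ) * t⁻¹ := by
        rw [← Real.rpow_neg_one t, ← Real.rpow_add ht0]
        norm_num
      rw [h11]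
      have h12 : |C| ≤ Real.sqrt κ * t := by
        have := hCT.trans ht.le
        rwa [div_le_iff₀' hsq] at this
      have h13 : C * t⁻¹ ≤ Real.sqrt κ := by
        rw [← div_eq_mul_inv, div_le_iff₀ ht0]
        exact (le_abs_self C).trans h12
      have h14 : 0 < t ^ (-(1 / 2) : ℝ) := Real.rpow_pos_of_pos ht0 _
      calc C * (t ^ (-(1 / 2) : ℝ) * t⁻¹) = C * t⁻¹ * t ^ (-(1 / 2) : ℝ) := by ring
        _ ≤ Real.sqrt κ * t ^ (-(1 / 2) : ℝ) := mul_le_mul_of_nonneg_right h13 h14.le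
    linarith
  have hone : (fun _ => 1 : Fin 2 → ℤ) = ![1, 1] := by
    funext i
    fin_cases i <;> rfl
  refine fnl 2 l (fun _ => -1) T' z d a (Real.sqrt κ) ?_ (by norm_num) ha hsq ?_
  · refine ⟨hl, fun k => by norm_num, hT.trans hTT, hds, fun k t ht =>
      hb k t (lt_of_le_of_lt hTT ht), fun k t ht => hode k t (lt_of_le_of_lt hTT ht), ?_,
      by norm_num, ?_⟩
    · intro t ht
      have htT : t > T := lt_of_le_of_lt hTT ht
      refine hmut l (fun k => (z k t).re) hl ?_ ?_
      · refine Summable.of_nonneg_of_le (fun k => abs_nonneg _) (fun k => ?_)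
          (hdsum.mul_right (t ^ (-(1 / 2) : ℝ)))
        exact (Complex.abs_re_le_norm _).trans (hb k t htT)
      · intro i k
        show (z (flp i k) t).re = - (z k t).re
        rw [hflip i k t htT, Complex.neg_re]
    · intro k hk t ht
      have htT : t > T := lt_of_le_of_lt hTT ht
      rw [Fin.prod_univ_two, hone]
      have e0 : ∀ x y : ℤ, flp (0 : Fin 2) ![x, y] = ![-x, y] := by
        intro x y
        funext j
        fin_cases j <;> simp [flp]
      have e1 : ∀ x y : ℤ, flp (1 : Fin 2) ![x, y] = ![x, -y] := by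
        intro x y
        funext j
        fin_cases j <;> simp [flp]
      have hk' : k = ![k 0, k 1] := by
        funext j
        fin_cases j <;> rfl
      rcases hk 0 with h | h <;> rcases hk 1 with h' | h' <;> rw [hk', h, h']
      · simp
      · have h2 := hflip 1 ![1, 1] t htT
        rw [e1] at h2
        rw [h2]
        simp
      · have h2 := hflip 0 ![1, 1] t htT
        rw [e0] at h2
        rw [h2]
        simp
      · have h2 := hflip 0 ![1, 1] t htT
        rw [e0] at h2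
        have h3 := hflip 1 ![-1, 1] t htT
        rw [e1] at h3
        rw [h3, h2]
        simp
  · intro t ht
    rw [hone]
    exact hlow t ht

end Pool.Agent.BOX.H15
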